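import Pool.Agent.Y590.CB.Farx
import Pool.Agent.Y472.G.Defs

set_option autoImplicit false

/-!
# THZ: bounds of the blocks
-/

namespace Pool.Agent.Y79.CG

open Finset Filter Topology
open Pool.Agent.W711.HT Pool.Agent.Y472 Pool.Agent.Y590.CB
open scoped Real

/-- product of masked sums -/
theorem prod_le {N : ℕ} {e : ℝ} (hN : (N : ℝ) ≤ Real.exp (N * e)) {f g F G m m' : Fin N → ℝ}
    (hf : ∀ x, f x = Real.exp (N * (F x + 6 * e))) (hg : ∀ x, g x = Real.exp (N * (G x + 6 * e)))
    (hm : ∀ x, m x = 0 ∨ m x = 1) (hm' : ∀ x, m' x = 0 ∨ m' x = 1)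
    (h : ∀ x y, m x ≠ 0 → m' y ≠ 0 → F x + G y ≤ 13 / 10) :
    (∑ y, m' y * g y) * (∑ x, m x * f x) ≤ Real.exp (N * (13 / 10 + 14 * e)) := by
  have h1 : ∀ y x : Fin N, (m' y * g y) * (m x * f x) ≤ Real.exp (N * (13 / 10 + 12 * e)) := by
    intro y x
    rcases hm x with h2 | h2
    · rw [h2]
      simp only [zero_mul, mul_zero]
      exact (Real.exp_pos _).le
    rcases hm' y with h3 | h3
    · rw [h3]
      simp only [zero_mul]
      exact (Real.exp_pos _).le
    have h4 := h x y (by rw [h2]; exact one_ne_zero) (by rw [h3]; exact one_ne_zero)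
    rw [h2, h3, one_mul, one_mul, hf, hg, ← Real.exp_add]
    refine Real.exp_le_exp.2 ?_
    rw [← mul_add]
    exact mul_le_mul_of_nonneg_left (by linarith) (Nat.cast_nonneg N)
  rw [sum_mul_sum]
  calc ∑ y, ∑ x, (m' y * g y) * (m x * f x) ≤
        ∑ _y : Fin N, ∑ _x : Fin N, Real.exp (N * (13 / 10 + 12 * e)) :=
        sum_le_sum fun y _ => sum_le_sum fun x _ => h1 y x
    _ = N * (N * Real.exp (N * (13 / 10 + 12 * e))) := by
      rw [sum_const, sum_const, card_univ, Fintype.card_fin, nsmul_eq_mul, nsmul_eq_mul]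
    _ ≤ Real.exp (N * e) * (Real.exp (N * e) * Real.exp (N * (13 / 10 + 12 * e))) := by gcongr
    _ = _ := by
      rw [← Real.exp_add, ← Real.exp_add]
      congr 1
      ring

theorem thz : S_THZ := by
  intro hT hR hRT ls hl ε hε
  obtain ⟨ρs, hρ0, hρ1, R1, R2, R3, R4, -, -⟩ := hR
  have hπ := Real.pi_pos
  set k := ls.length with hk
  have hk1 : 1 ≤ k := by
    rw [hk]
    exact List.length_pos_iff.2 hl
  have hkR : (1 : ℝ) ≤ k := by exact_mod_cast hk1
  set e : ℝ := ε / (14 * k) with he
  have he0 : 0 < e := by positivity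
  have he1 : 14 * k * e = ε := by
    rw [he]
    field_simp
  obtain ⟨τ, hτ, H⟩ := ent hT R4 ls e he0
  filter_upwards [H, ev_N he0, eventually_gt_atTop 0] with N H hN hN0
  intro p hp
  have hNR : (0 : ℝ) < N := by exact_mod_cast hN0
  have hNC : (N : ℂ) ≠ 0 := by exact_mod_cast hN0.ne'
  -- the final estimate
  have hfin : ∀ S : ℝ, 0 ≤ S → S ≤ Real.exp (N * (13 / 10 + 14 * e)) →
      S ^ k ≤ Real.exp (N * (13 / 10 * k + ε)) := by
    intro S hS0 hS
    calc S ^ k ≤ (Real.exp (N * (13 / 10 + 14 * e))) ^ k := by gcongr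
      _ = Real.exp (N * (13 / 10 * k + ε)) := by
          rw [← Real.exp_nat_mul]
          congr 1
          linear_combination (N : ℝ) * he1
  have hmk0 : ∀ (c : Prop) [Decidable c], (if c then (1 : ℝ) else 0) = 0 ∨
      (if c then (1 : ℝ) else 0) = 1 := by
    intro c _
    split_ifs <;> simp
  have hmk1 : ∀ (c : Prop) [Decidable c], (if c then (0 : ℝ) else 1) = 0 ∨
      (if c then (0 : ℝ) else 1) = 1 := by
    intro c _
    split_ifs <;> simp
  constructor
  · -- (3a)
    intro h2p
    set u : ℝ := 2 * π * p / N with hu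
    have hu0 : 0 ≤ u := by positivity
    have huπ : u ≤ π := by
      rw [hu, div_le_iff₀ hNR]
      have : (2 : ℝ) * p ≤ N := by exact_mod_cast h2p
      nlinarith
    have hu1 : |u| ≤ π := by
      rw [abs_of_nonneg hu0]
      exact huπ
    have hud : u / (2 * π) = p / N := by
      rw [hu]
      field_simp
    have hχ : (2 * π * p / N : ℂ) = ((u : ℝ) : ℂ) := by
      rw [hu]
      push_cast
      rfl
    have HH := H ((u : ℝ) : ℂ) (by rwa [Complex.ofReal_re]) (by
      rw [Complex.ofReal_im, abs_zero]; exact hτ.le)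
    rw [Complex.ofReal_re] at HH
    set Tx : ℝ := ∑ x : Fin N, (if N ≤ (x : ℕ) + p then (1 : ℝ) else 0) *
      (wp' N e u x * wp N e x) with hTx
    set Ty : ℝ := ∑ y : Fin N, (if N ≤ (y : ℕ) + p then (1 : ℝ) else 0) *
      (wq N e y * wq' N e u y) with hTy
    have hTx0 : 0 ≤ Tx := sum_nonneg fun x _ => by
      have := mul_nonneg (wp'_pos x.isLt e u).le (wp_pos x.isLt e).le
      split_ifs
      · rw [one_mul]
        exact this
      · rw [zero_mul]
    have hTy0 : 0 ≤ Ty := sum_nonneg fun x _ => by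
      have := mul_nonneg (wq_pos x.isLt e).le (wq'_pos x.isLt e u).le
      split_ifs
      · rw [one_mul]
        exact this
      · rw [zero_mul]
    have hT : Ty * Tx ≤ Real.exp (N * (13 / 10 + 14 * e)) := by
      refine prod_le hN (F := fun x : Fin N => 2 * (max (bb (1 - (x : ℝ) / N) 0) 0 -
        rh (1 - (x : ℝ) / N) u / 2)) (G := fun y : Fin N => 2 * (max (bb ((y : ℝ) / N) 0) 0 -
        rh ((y : ℝ) / N) u / 2)) (fun x => wx x.isLt hu1 R1) (fun y => wy y.isLt)
        (fun x => hmk0 _) (fun x => hmk0 _) ?_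
      intro x y hx hy
      have hx' : N ≤ (x : ℕ) + p := by
        by_contra hc
        rw [if_neg hc] at hx
        exact hx rfl
      have hy' : N ≤ (y : ℕ) + p := by
        by_contra hc
        rw [if_neg hc] at hy
        exact hy rfl
      have hxR : (N : ℝ) ≤ (x : ℝ) + p := by exact_mod_cast hx'
      have hyR : (N : ℝ) ≤ (y : ℝ) + p := by exact_mod_cast hy'
      have hxl : (x : ℝ) / N ≤ 1 := by
        rw [div_le_one hNR]
        exact_mod_cast x.isLt.le
      have hyl : (y : ℝ) / N ≤ 1 := by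
        rw [div_le_one hNR]
        exact_mod_cast y.isLt.le
      have hx2 : 1 ≤ (x : ℝ) / N + p / N := by
        rw [← add_div, le_div_iff₀ hNR]
        linarith
      have hy2 : 1 ≤ (y : ℝ) / N + p / N := by
        rw [← add_div, le_div_iff₀ hNR]
        linarith
      have := hRT ((y : ℝ) / N) (1 - (x : ℝ) / N) u hu0 huπ (by rw [hud]; linarith) hyl
        (by linarith) (by rw [hud]; linarith)
      linarith
    have h1 : ∀ s ∈ ls, Bd (fun x : Fin N => Ty * wp N e x)
        (fun x : Fin N => wp' N e u x * (if N ≤ (x : ℕ) + p then (1 : ℝ) else 0))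
        (MA0 N s.1 * pH N p * MB0 N ((u : ℝ) : ℂ) s.2 * pH N p) := by
      intro s hs
      have h3 := ((HH s hs).2.diag_right (d := fun i : Fin N => if N ≤ i + p then (1 : ℂ) else 0)
        (δ := fun i : Fin N => if N ≤ (i : ℕ) + p then (1 : ℝ) else 0)
        (fun i => norm_mask)).diag_left
        (d := fun i : Fin N => if N ≤ i + p then (1 : ℂ) else 0)
        (δ := fun i : Fin N => if N ≤ (i : ℕ) + p then (1 : ℝ) else 0) (fun i => norm_mask)
      have h4 := (HH s hs).1.mul h3
      rw [mul_assoc, mul_assoc]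
      refine h4.mono fun i j => le_of_eq ?_
      congr 2
      rw [hTy]
      exact sum_congr rfl fun y _ => by ring
    have h2 := tr_bd' hl h1 (d := fun i : Fin N => if N ≤ i + p then (1 : ℂ) else 0)
      (e := fun _ => 1) (fun i => norm_mask1) (fun i => by simp)
    rw [Matrix.diagonal_one, mul_one] at h2
    have e2 : Thi N ls p = (Matrix.diagonal (fun i : Fin N => if N ≤ i + p then (1 : ℂ) else 0) *
      (ls.map fun s => MA0 N s.1 * pH N p * MB0 N ((u : ℝ) : ℂ) s.2 * pH N p).prod).trace := by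
      unfold Thi
      rw [hχ]
      rfl
    rw [e2]
    refine h2.trans ?_
    have e3 : ∑ x : Fin N, wp' N e u x * (if N ≤ (x : ℕ) + p then (1 : ℝ) else 0) *
        (Ty * wp N e x) = Ty * Tx := by
      rw [hTx, mul_sum]
      exact sum_congr rfl fun x _ => by ring
    rw [e3, ← hk]
    exact hfin _ (mul_nonneg hTy0 hTx0) hT
  · -- (3b)
    intro h2p
    set u : ℝ := 2 * π * p / N - 2 * π with hu
    have hp1 : (p : ℝ) ≤ N := by exact_mod_cast hp.le
    have hp2 : (N : ℝ) ≤ 2 * p := by exact_mod_cast h2p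
    have hu2 : 2 * π * p / N ≤ 2 * π := by
      rw [div_le_iff₀ hNR]
      exact mul_le_mul_of_nonneg_left hp1 (by positivity)
    have hu3 : π ≤ 2 * π * p / N := by
      rw [le_div_iff₀ hNR]
      nlinarith
    have hu1 : |u| ≤ π := by
      rw [abs_le]
      constructor <;> linarith
    have hua : |u| = 2 * π - 2 * π * p / N := by
      rw [abs_of_nonpos (by linarith), hu]
      ring
    have hud : |u| / (2 * π) = 1 - p / N := by
      rw [hua]
      field_simp
    have hcos : Complex.cos (2 * π * p / N : ℂ) = Complex.cos ((u : ℝ) : ℂ) := by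
      have : (2 * π * p / N : ℂ) = ((u : ℝ) : ℂ) + 2 * π := by
        rw [hu]
        push_cast
        ring
      rw [this, Complex.cos_add_two_pi]
    have hMB : ∀ b : ℤ, MB0 N (2 * π * p / N : ℂ) b = MB0 N ((u : ℝ) : ℂ) b :=
      fun b => MB0_congr hcos b
    have HH := H ((u : ℝ) : ℂ) (by rwa [Complex.ofReal_re]) (by
      rw [Complex.ofReal_im, abs_zero]; exact hτ.le)
    rw [Complex.ofReal_re] at HH
    have hrh : ∀ δ : ℝ, rh δ u = rh δ |u| := by
      intro δ
      unfold rh
      rw [Real.cos_abs]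
    set Tx : ℝ := ∑ x : Fin N, (if N ≤ (x : ℕ) + p then (0 : ℝ) else 1) *
      (wp' N e u x * wp N e x) with hTx
    set Ty : ℝ := ∑ y : Fin N, (if N ≤ (y : ℕ) + p then (0 : ℝ) else 1) *
      (wq N e y * wq' N e u y) with hTy
    have hTx0 : 0 ≤ Tx := sum_nonneg fun x _ => by
      have := mul_nonneg (wp'_pos x.isLt e u).le (wp_pos x.isLt e).le
      split_ifs
      · rw [zero_mul]
      · rw [one_mul]
        exact this
    have hTy0 : 0 ≤ Ty := sum_nonneg fun x _ => by
      have := mul_nonneg (wq_pos x.isLt e).le (wq'_pos x.isLt e u).le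
      split_ifs
      · rw [zero_mul]
      · rw [one_mul]
        exact this
    have hT : Ty * Tx ≤ Real.exp (N * (13 / 10 + 14 * e)) := by
      refine prod_le hN (F := fun x : Fin N => 2 * (max (bb (1 - (x : ℝ) / N) 0) 0 -
        rh (1 - (x : ℝ) / N) u / 2)) (G := fun y : Fin N => 2 * (max (bb ((y : ℝ) / N) 0) 0 -
        rh ((y : ℝ) / N) u / 2)) (fun x => wx x.isLt hu1 R1) (fun y => wy y.isLt)
        (fun x => hmk1 _) (fun x => hmk1 _) ?_
      intro x y hx hy
      have hx' : ¬ N ≤ (x : ℕ) + p := by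
        intro hc
        rw [if_pos hc] at hx
        exact hx rfl
      have hy' : ¬ N ≤ (y : ℕ) + p := by
        intro hc
        rw [if_pos hc] at hy
        exact hy rfl
      have hxR : (x : ℝ) + p ≤ (N : ℝ) := by exact_mod_cast (not_le.1 hx').le
      have hyR : (y : ℝ) + p ≤ (N : ℝ) := by exact_mod_cast (not_le.1 hy').le
      have hxl : 0 ≤ (x : ℝ) / N := by positivity
      have hyl : 0 ≤ (y : ℝ) / N := by positivity
      have hx2 : (x : ℝ) / N + p / N ≤ 1 := by
        rw [← add_div, div_le_one hNR]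
        linarith
      have hy2 : (y : ℝ) / N + p / N ≤ 1 := by
        rw [← add_div, div_le_one hNR]
        linarith
      have := hRT (1 - (x : ℝ) / N) ((y : ℝ) / N) |u| (abs_nonneg _) hu1 (by rw [hud]; linarith)
        (by linarith) hyl (by rw [hud]; linarith)
      rw [hrh, hrh]
      linarith
    -- the blocks
    set L : Matrix (Fin N) (Fin N) ℂ := Matrix.diagonal
      (fun i : Fin N => if N ≤ i + p then (0 : ℂ) else 1) with hL
    have hHL : pH N p + L = 1 := diag_compl _
    have hLH : L * pH N p = 0 := by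
      rw [hL, pH, Matrix.diagonal_mul_diagonal, ← Matrix.diagonal_zero]
      congr 1
      funext i
      split_ifs <;> simp
    have hHH : pH N p * pH N p = pH N p := by
      rw [pH, Matrix.diagonal_mul_diagonal]
      congr 1
      funext i
      split_ifs <;> simp
    have hLL : L * L = L := by
      rw [hL, Matrix.diagonal_mul_diagonal]
      congr 1
      funext i
      split_ifs <;> simp
    have hLA : ∀ a : ℤ, L * MA0 N a * pH N p = 0 := by
      intro a
      ext x y
      rw [hL, pH, Matrix.mul_diagonal, Matrix.diagonal_mul, Matrix.zero_apply]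
      by_cases h1 : N ≤ (x : ℕ) + p
      · rw [if_pos h1]
        ring
      by_cases h2 : N ≤ (y : ℕ) + p
      · have h3 : MA0 N a x y = 0 := by
          unfold MA0
          rw [if_neg]
          rw [Fin.le_def]
          omega
        rw [h3]
        ring
      · rw [if_neg h2]
        ring
    have hPh : Ph N (2 * π * p / N : ℂ) (N - p) = 0 := by
      unfold Ph
      have e1 : Real.cos (2 * π * ((N - p : ℕ) : ℝ) / N) = Real.cos (2 * π * p / N) :=
        cos_symm hN0 hp.le
      rw [e1]
      have e2 : Complex.cos (2 * π * p / N : ℂ) = ((Real.cos (2 * π * p / N) : ℝ) : ℂ) := by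
        push_cast
        rfl
      rw [e2, sub_self, mul_zero]
    have hLB : ∀ b : ℤ, L * MB0 N (2 * π * p / N : ℂ) b * pH N p = 0 := by
      intro b
      ext y x
      rw [hL, pH, Matrix.mul_diagonal, Matrix.diagonal_mul, Matrix.zero_apply]
      by_cases h1 : N ≤ (y : ℕ) + p
      · rw [if_pos h1]
        ring
      by_cases h2 : N ≤ (x : ℕ) + p
      · have h3 : MB0 N (2 * π * p / N : ℂ) b y x = 0 := by
          unfold MB0
          split_ifs with h4
          · rw [prod_eq_zero (i := N - p) (by rw [mem_Ioc]; omega) hPh, zero_mul]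
          · rfl
        rw [h3]
        ring
      · rw [if_neg h2]
        ring
    have hR0 : ∀ s : ℤ × ℤ, L * (MA0 N s.1 * MB0 N (2 * π * p / N : ℂ) s.2) * pH N p = 0 := by
      intro s
      calc L * (MA0 N s.1 * MB0 N (2 * π * p / N : ℂ) s.2) * pH N p =
          L * (MA0 N s.1 * (pH N p + L) * MB0 N (2 * π * p / N : ℂ) s.2) * pH N p := by
            rw [hHL, mul_one]
        _ = (L * MA0 N s.1 * pH N p) * MB0 N (2 * π * p / N : ℂ) s.2 * pH N p +
            L * MA0 N s.1 * (L * MB0 N (2 * π * p / N : ℂ) s.2 * pH N p) := by noncomm_ring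
        _ = 0 := by rw [hLA, hLB]; simp
    have hHR : ∀ s : ℤ × ℤ, pH N p * (MA0 N s.1 * MB0 N (2 * π * p / N : ℂ) s.2) * pH N p =
        pH N p * (MA0 N s.1 * pH N p * MB0 N (2 * π * p / N : ℂ) s.2) * pH N p := by
      intro s
      calc pH N p * (MA0 N s.1 * MB0 N (2 * π * p / N : ℂ) s.2) * pH N p =
          pH N p * (MA0 N s.1 * (pH N p + L) * MB0 N (2 * π * p / N : ℂ) s.2) * pH N p := by
            rw [hHL, mul_one]
        _ = pH N p * (MA0 N s.1 * pH N p * MB0 N (2 * π * p / N : ℂ) s.2) * pH N p +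
            pH N p * MA0 N s.1 * (L * MB0 N (2 * π * p / N : ℂ) s.2 * pH N p) := by noncomm_ring
        _ = _ := by rw [hLB]; simp
    have hLR : ∀ s : ℤ × ℤ, L * (MA0 N s.1 * MB0 N (2 * π * p / N : ℂ) s.2) * L =
        L * (MA0 N s.1 * (L * MB0 N (2 * π * p / N : ℂ) s.2)) * L := by
      intro s
      calc L * (MA0 N s.1 * MB0 N (2 * π * p / N : ℂ) s.2) * L =
          L * (MA0 N s.1 * (pH N p + L) * MB0 N (2 * π * p / N : ℂ) s.2) * L := by
            rw [hHL, mul_one]
        _ = (L * MA0 N s.1 * pH N p) * MB0 N (2 * π * p / N : ℂ) s.2 * L +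
            L * (MA0 N s.1 * (L * MB0 N (2 * π * p / N : ℂ) s.2)) * L := by noncomm_ring
        _ = _ := by rw [hLA]; simp
    have h1 := tr_blk hHL hLH hHH hLL
      (fun s : ℤ × ℤ => MA0 N s.1 * MB0 N (2 * π * p / N : ℂ) s.2) hR0 ls
    simp only [hHR] at h1
    rw [Matrix.trace_mul_comm, ← mul_assoc, hHH, lstH hHH] at h1
    have e1 : Tf N ls (2 * π * p / N : ℂ) - Thi N ls p =
        (L * (ls.map fun s : ℤ × ℤ =>
          L * (MA0 N s.1 * MB0 N (2 * π * p / N : ℂ) s.2) * L).prod * L).trace := by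
      unfold Tf Thi
      rw [h1]
      ring
    rw [e1]
    have h2 : ∀ s ∈ ls, Bd (fun x : Fin N => (if N ≤ (x : ℕ) + p then (0 : ℝ) else 1) *
        (Ty * wp N e x)) (fun x : Fin N => wp' N e u x * 1)
        (L * (MA0 N s.1 * MB0 N (2 * π * p / N : ℂ) s.2) * L) := by
      intro s hs
      rw [hLR, hMB]
      have h3 := (HH s hs).2.diag_left
        (d := fun i : Fin N => if N ≤ i + p then (0 : ℂ) else 1)
        (δ := fun i : Fin N => if N ≤ (i : ℕ) + p then (0 : ℝ) else 1) (fun i => norm_mask')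
      have h4 := (((HH s hs).1.mul h3).diag_left
        (d := fun i : Fin N => if N ≤ i + p then (0 : ℂ) else 1)
        (δ := fun i : Fin N => if N ≤ (i : ℕ) + p then (0 : ℝ) else 1)
        (fun i => norm_mask')).diag_right
        (d := fun i : Fin N => if N ≤ i + p then (0 : ℂ) else 1) (δ := fun _ => 1)
        (fun i => norm_mask1')
      refine h4.mono fun i j => le_of_eq ?_
      congr 3
      rw [hTy]
      exact sum_congr rfl fun y _ => by ring
    have h3 := tr_bd' hl h2 (d := fun i : Fin N => if N ≤ i + p then (0 : ℂ) else 1)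
      (e := fun i : Fin N => if N ≤ i + p then (0 : ℂ) else 1) (fun i => norm_mask1')
      (fun i => norm_mask1')
    refine h3.trans ?_
    have e3 : ∑ x : Fin N, wp' N e u x * 1 *
        ((if N ≤ (x : ℕ) + p then (0 : ℝ) else 1) * (Ty * wp N e x)) = Ty * Tx := by
      rw [hTx, mul_sum]
      exact sum_congr rfl fun x _ => by ring
    rw [e3, ← hk]
    exact hfin _ (mul_nonneg hTy0 hTx0) hT

end Pool.Agent.Y79.CG
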