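import Pool.Agent.Y79.CG.Rhot

set_option autoImplicit false

/-!
# RHOT: the integrals for the blocks, numerical part
-/

namespace Pool.Agent.Y79.CG

open GapVol EvenVol EvenVol.LobIneq MeasureTheory Filter Topology
open scoped Real

lemma sqrt2_bd : (7071 / 5000 : ℝ) ≤ √2 ∧ √2 ≤ 7072 / 5000 := by
  constructor
  · rw [Real.le_sqrt (by norm_num) (by norm_num)]
    norm_num
  · rw [Real.sqrt_le_left (by norm_num)]
    norm_num

lemma DT_nonneg {b : ℝ} (h0 : 0 < b) (h1 : b ≤ π / 4) : 0 ≤ DT b := by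
  have hπ := Real.pi_pos
  obtain ⟨r1, r2⟩ := sqrt2_bd
  have c1 : Real.cos (π / 4) ≤ Real.cos b :=
    Real.cos_le_cos_of_nonneg_of_le_pi h0.le (by linarith) h1
  rw [Real.cos_pi_div_four] at c1
  have s0 : 0 < Real.sin b := sinp h0 (by linarith)
  have hsc := Real.sin_sq_add_cos_sq b
  have h2 : (1:ℝ) ≤ √(1 + Real.cos b ^ 2) := by
    rw [Real.le_sqrt (by norm_num) (by positivity)]
    nlinarith [sq_nonneg (Real.cos b)]
  unfold DT
  have : Real.log (4 * Real.sin b ^ 2) ≤
      Real.log ((Real.cos b + √(1 + Real.cos b ^ 2)) * (2 * Real.cos b)) := by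
    apply Real.log_le_log (by positivity)
    have h3 : (7:ℝ) / 10 ≤ Real.cos b := by linarith
    nlinarith
  linarith

lemma DT_le {b : ℝ} (h0 : π / 4 ≤ b) (h1 : b < π / 2) : DT b ≤ 64 / 100 := by
  have hπ := Real.pi_pos
  obtain ⟨r1, r2⟩ := sqrt2_bd
  have c1 : Real.cos b ≤ Real.cos (π / 4) :=
    Real.cos_le_cos_of_nonneg_of_le_pi (by positivity) (by linarith) h0
  rw [Real.cos_pi_div_four] at c1
  have c0 : 0 < Real.cos b := Real.cos_pos_of_mem_Ioo ⟨by linarith, h1⟩
  have s0 : 0 < Real.sin b := sinp (by linarith) (by linarith)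
  have hsc := Real.sin_sq_add_cos_sq b
  have h2' : √2 * √2 = 2 := Real.mul_self_sqrt (by norm_num)
  have c2 : Real.cos b ^ 2 ≤ 1 / 2 := by nlinarith
  have c3 : Real.cos b ≤ 7072 / 10000 := by linarith
  have h2 : √(1 + Real.cos b ^ 2) ≤ 122475 / 100000 := by
    rw [Real.sqrt_le_left (by norm_num)]
    nlinarith
  have h3 : 0 ≤ √(1 + Real.cos b ^ 2) := Real.sqrt_nonneg _
  have he : 1 + 32 / 100 + (32 / 100) ^ 2 / 2 ≤ Real.exp (32 / 100) :=
    Real.quadratic_le_exp_of_nonneg (by norm_num)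
  have : Real.log ((Real.cos b + √(1 + Real.cos b ^ 2)) * (2 * Real.cos b)) ≤
      Real.log (4 * Real.sin b ^ 2 * Real.exp (32 / 100)) := by
    apply Real.log_le_log (by positivity)
    have h4 : (1:ℝ) / 2 ≤ Real.sin b ^ 2 := by linarith
    have h5 : (Real.cos b + √(1 + Real.cos b ^ 2)) * (2 * Real.cos b) ≤
        (7072 / 10000 + 122475 / 100000) * (2 * (7072 / 10000)) := by
      apply mul_le_mul (by linarith) (by linarith) (by positivity) (by norm_num)
    have h6 : 2 * (1 + 32 / 100 + (32 / 100) ^ 2 / 2) ≤ 4 * Real.sin b ^ 2 * Real.exp (32 / 100) := by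
      apply mul_le_mul (by linarith) he (by norm_num) (by positivity)
    norm_num at h5 h6 ⊢
    linarith
  have h9 : Real.log (4 * Real.sin b ^ 2 * Real.exp (32 / 100)) =
      Real.log (4 * Real.sin b ^ 2) + 32 / 100 := by
    rw [Real.log_mul (by positivity) (by positivity), Real.log_exp]
  rw [h9] at this
  unfold DT
  linarith

lemma DT_nonpos {b : ℝ} (h0 : 0 < b) (h1 : b < π / 2) (hc : Real.cos b ≤ 64 / 100) : DT b ≤ 0 := by
  have hπ := Real.pi_pos
  have c0 : 0 < Real.cos b := Real.cos_pos_of_mem_Ioo ⟨by linarith, h1⟩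
  have s0 : 0 < Real.sin b := sinp (by linarith) (by linarith)
  have hsc := Real.sin_sq_add_cos_sq b
  have c2 : Real.cos b ^ 2 ≤ (64 / 100) ^ 2 := pow_le_pow_left₀ c0.le hc 2
  have h2 : √(1 + Real.cos b ^ 2) ≤ 11873 / 10000 := by
    rw [Real.sqrt_le_left (by norm_num)]
    norm_num at c2 ⊢
    linarith
  have h3 : 0 ≤ √(1 + Real.cos b ^ 2) := Real.sqrt_nonneg _
  have : Real.log ((Real.cos b + √(1 + Real.cos b ^ 2)) * (2 * Real.cos b)) ≤
      Real.log (4 * Real.sin b ^ 2) := by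
    apply Real.log_le_log (by positivity)
    have h5 : (Real.cos b + √(1 + Real.cos b ^ 2)) * (2 * Real.cos b) ≤
        (64 / 100 + 11873 / 10000) * (2 * (64 / 100)) := by
      apply mul_le_mul (by linarith) (by linarith) (by positivity) (by norm_num)
    norm_num at h5 c2 ⊢
    linarith
  unfold DT
  linarith

lemma cos_b1 {b : ℝ} (h0 : π / 4 + 915 / 10000 ≤ b) (h1 : b ≤ π / 2) : Real.cos b ≤ 64 / 100 := by
  have hπ := Real.pi_pos
  obtain ⟨r1, r2⟩ := sqrt2_bd
  have c1 : Real.cos b ≤ Real.cos (π / 4 + 915 / 10000) :=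
    Real.cos_le_cos_of_nonneg_of_le_pi (by positivity) (by linarith) h0
  have h2 : Real.sin (915 / 10000) ≥ 915 / 10000 - (915 / 10000) ^ 3 / 6 :=
    Real.sin_ge_sub_cube (by norm_num)
  have h3 := Real.cos_bound (x := 915 / 10000) (by rw [abs_of_pos] <;> norm_num)
  have h4 := (abs_le.1 h3).2
  rw [abs_of_pos (by norm_num)] at h4
  rw [Real.cos_add, Real.cos_pi_div_four, Real.sin_pi_div_four] at c1
  have h5 : Real.cos (915 / 10000) - Real.sin (915 / 10000) ≤ 90446 / 100000 := by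
    norm_num at h2 h4 ⊢
    linarith
  have h6 : √2 / 2 * (Real.cos (915 / 10000) - Real.sin (915 / 10000)) ≤
      7072 / 10000 * (90446 / 100000) := by
    apply mul_le_mul (by linarith) h5 _ (by norm_num)
    have := Real.one_sub_sq_div_two_le_cos (x := 915 / 10000)
    have h7 := Real.sin_le (x := 915 / 10000) (by norm_num)
    norm_num at this h7 ⊢
    linarith
  norm_num at h6 ⊢
  linarith

lemma log_pi_two : (4515 / 10000 : ℝ) ≤ Real.log (π / 2) := by
  have hπ := Real.pi_gt_d4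
  rw [Real.le_log_iff_exp_le (by positivity)]
  have h := Real.exp_bound' (x := 4515 / 10000) (by norm_num) (by norm_num) (n := 7) (by norm_num)
  refine h.trans ?_
  simp only [Finset.sum_range_succ, Finset.sum_range_zero, Nat.factorial]
  norm_num at hπ ⊢
  linarith

lemma log_pi_three : (46 / 1000 : ℝ) ≤ Real.log (π / 3) := by
  have hπ := Real.pi_gt_d4
  rw [Real.le_log_iff_exp_le (by positivity)]
  have h := Real.exp_bound' (x := 46 / 1000) (by norm_num) (by norm_num) (n := 4) (by norm_num)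
  refine h.trans ?_
  simp only [Finset.sum_range_succ, Finset.sum_range_zero, Nat.factorial]
  norm_num at hπ ⊢
  linarith

lemma lob_pi_four : lob (π / 4) ≤ 4588 / 10000 := by
  have hπ := Real.pi_gt_d4
  have hπ2 := Real.pi_lt_d4
  have h := lob_upper (θ := π / 4) (by positivity) (by norm_num at hπ2 ⊢; linarith)
  rw [show 2 * (π / 4) = π / 2 by ring] at h
  have h1 := log_pi_two
  have h2 : π / 4 * (4515 / 10000) ≤ π / 4 * Real.log (π / 2) :=
    mul_le_mul_of_nonneg_left h1 (by positivity)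
  have h3 : (π / 4) ≤ 7854 / 10000 := by norm_num at hπ2 ⊢; linarith
  have h4 : (π / 4) ^ 3 ≤ (7854 / 10000) ^ 3 := pow_le_pow_left₀ (by positivity) h3 3
  have h5 : (π / 4) ^ 5 ≤ (7854 / 10000) ^ 5 := pow_le_pow_left₀ (by positivity) h3 5
  norm_num at h2 h3 h4 h5 ⊢
  linarith

lemma lob_pi_six : lob (π / 6) ≤ 5077 / 10000 := by
  have hπ := Real.pi_gt_d4
  have hπ2 := Real.pi_lt_d4
  have h := lob_upper (θ := π / 6) (by positivity) (by norm_num at hπ2 ⊢; linarith)
  rw [show 2 * (π / 6) = π / 3 by ring] at h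
  have h1 := log_pi_three
  have h2 : π / 6 * (46 / 1000) ≤ π / 6 * Real.log (π / 3) :=
    mul_le_mul_of_nonneg_left h1 (by positivity)
  have h3 : (π / 6) ≤ 5236 / 10000 := by norm_num at hπ2 ⊢; linarith
  have h4 : (π / 6) ^ 3 ≤ (5236 / 10000) ^ 3 := pow_le_pow_left₀ (by positivity) h3 3
  have h5 : (π / 6) ^ 5 ≤ (5236 / 10000) ^ 5 := pow_le_pow_left₀ (by positivity) h3 5
  norm_num at h2 h3 h4 h5 ⊢
  linarith

lemma tau_pi_four : tau (π / 4) = π / 6 := by
  have hπ := Real.pi_pos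
  unfold tau
  have h2 : √2 ≠ 0 := by positivity
  rw [Real.sin_pi_div_four, show √2 / 2 / √2 = 1 / 2 by field_simp, ← Real.sin_pi_div_six,
    Real.arcsin_sin (by linarith) (by linarith)]

lemma TT_pi_four : TT (π / 4) ≤ 402205 / 100000 := by
  have h1 := lob_pi_four
  have h2 := lob_pi_six
  have h3 : TT (π / 4) = 5 / 2 * lob (π / 6) + 6 * lob (π / 4) := by
    unfold TT G1
    rw [tau_pi_four, show π / 2 - π / 4 = π / 4 by ring, show π / 4 + π / 6 = 5 * π / 12 by ring,
      show π / 4 - π / 6 = π / 12 by ring]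
    have h4 := lob_two (π / 12)
    rw [show 2 * (π / 12) = π / 6 by ring, show π / 12 + π / 2 = -(5 * π / 12) + π by ring, lob_per,
      lob_neg] at h4
    linarith
  rw [h3]
  norm_num at h1 h2 ⊢
  linarith

lemma TT_le {b : ℝ} (h0 : 0 ≤ b) (h1 : b ≤ π / 2) : TT b ≤ 13 / 10 * π := by
  have hπ := Real.pi_gt_d4
  have hπ2 := Real.pi_lt_d4
  have hT := TT_pi_four
  set b1 : ℝ := π / 4 + 915 / 10000 with hb1
  have b1lt : b1 < π / 2 := by
    rw [hb1]
    norm_num at hπ ⊢
    linarith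
  have A1 : MonotoneOn TT (Set.Icc 0 (π / 4)) := by
    apply monotoneOn_of_deriv_nonneg (convex_Icc _ _) cont_TT.continuousOn
    · intro x hx
      rw [interior_Icc] at hx
      exact (dTT hx.1 (by linarith [hx.2])).differentiableAt.differentiableWithinAt
    · intro x hx
      rw [interior_Icc] at hx
      rw [(dTT hx.1 (by linarith [hx.2])).deriv]
      exact DT_nonneg hx.1 hx.2.le
  have A2 : AntitoneOn (fun b => TT b - 64 / 100 * b) (Set.Icc (π / 4) b1) := by
    have hc : Continuous fun b => TT b - 64 / 100 * b := cont_TT.sub (continuous_const.mul continuous_id)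
    have hd : ∀ x ∈ Set.Ioo (π / 4) b1, HasDerivAt (fun b => TT b - 64 / 100 * b)
        (DT x - 64 / 100 * 1) x := by
      intro x hx
      exact (dTT (by linarith [hx.1]) (by linarith [hx.2])).sub ((hasDerivAt_id x).const_mul _)
    apply antitoneOn_of_deriv_nonpos (convex_Icc _ _) hc.continuousOn
    · intro x hx
      rw [interior_Icc] at hx
      exact (hd x hx).differentiableAt.differentiableWithinAt
    · intro x hx
      rw [interior_Icc] at hx
      rw [(hd x hx).deriv]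
      linarith [DT_le hx.1.le (by linarith [hx.2] : x < π / 2)]
  have A3 : AntitoneOn TT (Set.Icc b1 (π / 2)) := by
    apply antitoneOn_of_deriv_nonpos (convex_Icc _ _) cont_TT.continuousOn
    · intro x hx
      rw [interior_Icc] at hx
      exact (dTT (by linarith [hx.1]) hx.2).differentiableAt.differentiableWithinAt
    · intro x hx
      rw [interior_Icc] at hx
      rw [(dTT (by linarith [hx.1]) hx.2).deriv]
      exact DT_nonpos (by linarith [hx.1]) hx.2 (cos_b1 hx.1.le hx.2.le)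
  have hmid : ∀ x ∈ Set.Icc (π / 4) b1, TT x ≤ 402205 / 100000 + 64 / 100 * (915 / 10000) := by
    intro x hx
    have := A2 ⟨le_rfl, hx.1.trans hx.2⟩ hx hx.1
    simp only at this
    have h2 := hx.2
    rw [hb1] at h2
    linarith
  have hfin : (402205 / 100000 + 64 / 100 * (915 / 10000) : ℝ) ≤ 13 / 10 * π := by
    norm_num at hπ ⊢
    linarith
  rcases le_total b (π / 4) with h | h
  · have := A1 ⟨h0, h⟩ ⟨h0.trans h, le_rfl⟩ h
    norm_num at hfin hT this ⊢
    linarith
  · rcases le_total b b1 with h' | h'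
    · exact (hmid b ⟨h, h'⟩).trans hfin
    · have := A3 ⟨le_rfl, b1lt.le⟩ ⟨h', h1⟩ h'
      exact this.trans ((hmid b1 ⟨by rw [hb1]; linarith, le_rfl⟩).trans hfin)

lemma FF_pi_two (s : ℝ) : FF s (π / 2) = -2 * lob (π / 2 - s) - 2 * lob s := by
  unfold FF
  rw [show s + π / 2 = -(π / 2 - s) + π by ring, lob_per, lob_neg,
    show s - π / 2 = -(π / 2 - s) by ring, lob_neg]
  ring

lemma FF_b (s b : ℝ) : FF s b = lob (b + s) - lob (b - s) - 2 * lob s := by
  unfold FF
  rw [show s - b = -(b - s) by ring, lob_neg, add_comm s b]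
  ring

/-- RHOT -/
theorem rhot : Pool.Agent.Y472.S_RHOT := by
  intro δ δ' x hx0 hx1 h1 h2 h3 h4
  have hπ := Real.pi_pos
  have e0 : (0:ℝ) / 2 + π / 2 = π / 2 := by ring
  rw [Y105.CB.rh_FF, Y105.CB.rh_FF, W688.HT.bb_FF, W688.HT.bb_FF, e0]
  obtain ⟨t, ht⟩ : ∃ t, t = π - π * δ := ⟨_, rfl⟩
  obtain ⟨s, hs⟩ : ∃ s, s = π * δ' := ⟨_, rfl⟩
  rw [← hs, ← ht]
  have ht0 : 0 ≤ t := by
    rw [ht]
    nlinarith
  have h5 : π * (1 - x / (2 * π)) ≤ π * δ := mul_le_mul_of_nonneg_left h1 hπ.le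
  have h6 : π * (1 - x / (2 * π)) = π - x / 2 := by
    field_simp
  have htb : t ≤ x / 2 := by linarith
  have hs0 : 0 ≤ s := by
    rw [hs]
    positivity
  have h7 : π * δ' ≤ π * (x / (2 * π)) := mul_le_mul_of_nonneg_left h4 hπ.le
  have h8 : π * (x / (2 * π)) = x / 2 := by
    field_simp
  have hsb : s ≤ x / 2 := by linarith
  have n1 : 0 ≤ FF (π - t) (π / 2) :=
    Y105.CB.FF_nonneg (by linarith) (by linarith) (by linarith) le_rfl
  rw [Y105.CB.FF_refl] at n1
  have n2 : 0 ≤ FF (π - s) (π / 2) :=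
    Y105.CB.FF_nonneg (by linarith) (by linarith) (by linarith) le_rfl
  rw [max_eq_right (div_nonpos_of_nonpos_of_nonneg (by linarith) hπ.le),
    max_eq_left (div_nonneg n2 hπ.le), Y105.CB.FF_refl s, Y105.CB.FF_refl s]
  obtain ⟨c, c0, c1, c2⟩ := sum_le_TT (t := t) (s := s) (b := x / 2) ht0 htb hs0 hsb (by linarith)
  have c3 := c2.trans (TT_le c0 c1)
  have e1 : 2 * 0 - FF t (x / 2) / π + (2 * (-FF s (π / 2) / π) - -FF s (x / 2) / π) =
      (G1 t (x / 2) + G2 s (x / 2)) / π := by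
    rw [FF_pi_two, FF_b, FF_b]
    unfold G1 G2
    ring
  rw [e1, div_le_iff₀ hπ]
  exact c3

end Pool.Agent.Y79.CG
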