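import Pool.Agent.Y105.CB.Rho

set_option autoImplicit false

/-!
# Lobachevsky's function: derivative, duplication, upper bounds
-/

namespace Pool.Agent.Y79.CG

open GapVol EvenVol EvenVol.LobIneq MeasureTheory Filter Topology
open scoped Real

lemma g_cont {t : ℝ} (h : Real.sin t ≠ 0) : ContinuousAt g t := by
  unfold g
  apply ContinuousAt.neg
  apply ContinuousAt.log
  · fun_prop
  · exact mul_ne_zero two_ne_zero h

lemma g_meas : Measurable g := by
  unfold g
  fun_prop

lemma lob_deriv {t : ℝ} (h : Real.sin t ≠ 0) : HasDerivAt lob (g t) t := by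
  have h1 : lob = fun x => ∫ t in (0:ℝ)..x, g t := by
    funext x
    exact lob_eq x
  rw [h1]
  exact intervalIntegral.integral_hasDerivAt_right (g_int 0 t)
    (g_meas.stronglyMeasurable.stronglyMeasurableAtFilter) (g_cont h)

lemma lob_half : lob (π / 2) = 0 := by
  have h1 : lob (π / 2) = -lob (π / 2) := by
    conv_lhs => rw [show π / 2 = -(π / 2) + π by ring, lob_per, lob_neg]
  linarith

lemma g_two {s : ℝ} (h : Real.sin (2 * s) ≠ 0) : g (2 * s) = g s + g (s + π / 2) := by
  rw [Real.sin_two_mul] at h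
  have h1 : Real.sin s ≠ 0 := fun h0 => h (by rw [h0]; ring)
  have h2 : Real.cos s ≠ 0 := fun h0 => h (by rw [h0]; ring)
  unfold g
  rw [Real.sin_add_pi_div_two, Real.sin_two_mul,
    show 2 * (2 * Real.sin s * Real.cos s) = (2 * Real.sin s) * (2 * Real.cos s) by ring,
    Real.log_mul (mul_ne_zero two_ne_zero h1) (mul_ne_zero two_ne_zero h2)]
  ring

lemma ae_two : ∀ᵐ s : ℝ, Real.sin (2 * s) ≠ 0 := by
  have h : {s : ℝ | ¬ Real.sin (2 * s) ≠ 0} ⊆ Set.range (fun n : ℤ => (n : ℝ) * π / 2) := by
    intro s hs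
    simp only [ne_eq, not_not, Set.mem_ofPred_eq] at hs
    obtain ⟨n, hn⟩ := Real.sin_eq_zero_iff.1 hs
    exact ⟨n, by simp only; linarith⟩
  rw [ae_iff]
  exact measure_mono_null h ((Set.countable_range _).measure_zero _)

lemma lob_two (x : ℝ) : lob (2 * x) = 2 * lob x + 2 * lob (x + π / 2) := by
  have h1 : lob (2 * x) = 2 * ∫ s in (0:ℝ)..x, g (2 * s) := by
    rw [intervalIntegral.integral_comp_mul_left g (two_ne_zero), lob_eq, mul_zero, smul_eq_mul]
    ring
  have h2 : ∫ s in (0:ℝ)..x, g (2 * s) = ∫ s in (0:ℝ)..x, (g s + g (s + π / 2)) := by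
    apply intervalIntegral.integral_congr_ae
    filter_upwards [ae_two] with s hs _
    exact g_two hs
  have h3 : ∫ s in (0:ℝ)..x, g (s + π / 2) = lob (x + π / 2) := by
    rw [intervalIntegral.integral_comp_add_right g, zero_add, ← lob_sub, lob_half, sub_zero]
  have h4 : IntervalIntegrable (fun s => g (s + π / 2)) volume 0 x := by
    have := g_int_add (π / 2) 0 x
    simpa only [add_comm] using this
  rw [h1, h2, intervalIntegral.integral_add (g_int _ _) h4, h3, ← lob_eq]
  ring

/-- upper bound -/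
lemma lob_upper {θ : ℝ} (h0 : 0 < θ) (h1 : θ ≤ 4 / 5) :
    lob θ ≤ θ - θ * Real.log (2 * θ) + θ ^ 3 / 18 + θ ^ 5 / 300 := by
  have hπ := Real.pi_gt_three
  set F : ℝ → ℝ := fun x => x - x * Real.log (2 * x) + x ^ 3 / 18 + x ^ 5 / 300 - lob x with hF
  have hF0 : F 0 = 0 := by
    simp [hF, lob_zero]
  have hcont : Continuous F := by
    have h2 : Continuous (fun x : ℝ => x * Real.log (2 * x)) := by
      have h3 : (fun x : ℝ => x * Real.log (2 * x)) =
          fun x : ℝ => (1 / 2) * ((2 * x) * Real.log (2 * x)) := by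
        funext x
        ring
      rw [h3]
      exact continuous_const.mul (Real.continuous_mul_log.comp (continuous_const.mul continuous_id))
    have h4 := lob_cont
    simp only [hF]
    exact ((((continuous_id.sub h2).add ((continuous_pow 3).div_const 18)).add
      ((continuous_pow 5).div_const 300)).sub h4)
  have hmono : MonotoneOn F (Set.Icc 0 (4 / 5)) := by
    apply monotoneOn_of_hasDerivWithinAt_nonneg (convex_Icc _ _) hcont.continuousOn
      (f' := fun x => 1 - (1 * Real.log (2 * x) + x * ((2 * 1) / (2 * x))) + 3 * x ^ 2 / 18 +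
        5 * x ^ 4 / 300 - g x)
    · intro x hx
      rw [interior_Icc] at hx
      have hx0 : 0 < x := hx.1
      have hs : Real.sin x ≠ 0 := (Real.sin_pos_of_pos_of_lt_pi hx0 (by linarith [hx.2])).ne'
      apply HasDerivAt.hasDerivWithinAt
      have e1 : HasDerivAt (fun x : ℝ => Real.log (2 * x)) ((2 * 1) / (2 * x)) x := by
        have := ((hasDerivAt_id x).const_mul (2 : ℝ)).log (by simp only [id]; positivity)
        simpa using this
      have e2 := (hasDerivAt_id x).mul e1
      have e3 := (hasDerivAt_pow 3 x).div_const 18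
      have e4 := (hasDerivAt_pow 5 x).div_const 300
      have e5 := ((((hasDerivAt_id x).sub e2).add e3).add e4).sub (lob_deriv hs)
      have e6 : (1 - (1 * Real.log (2 * x) + x * (2 * 1 / (2 * x))) + 3 * x ^ 2 / 18 +
          5 * x ^ 4 / 300 - g x) = (1 - (1 * Real.log (2 * x) + id x * (2 * 1 / (2 * x))) +
          ((3 : ℕ) : ℝ) * x ^ (3 - 1) / 18 + ((5 : ℕ) : ℝ) * x ^ (5 - 1) / 300 - g x) := by
        norm_num
      rw [e6]
      exact e5
    · intro x hx
      rw [interior_Icc] at hx
      have hx0 : 0 < x := hx.1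
      have hx1 : x < 4 / 5 := hx.2
      have hsin : x - x ^ 3 / 6 ≤ Real.sin x := Real.sin_ge_sub_cube hx0.le
      have hsp : 0 < Real.sin x := Real.sin_pos_of_pos_of_lt_pi hx0 (by linarith)
      set y : ℝ := x ^ 2 / 6 with hy
      have hy0 : 0 < y := by positivity
      have hy1 : y ≤ 4 / 35 := by
        rw [hy]
        nlinarith
      have h3 := Real.abs_log_sub_add_sum_range_le (x := y) (by rw [abs_of_pos hy0]; linarith) 3
      rw [abs_of_pos hy0] at h3
      simp only [Finset.sum_range_succ, Finset.sum_range_zero] at h3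
      norm_num at h3
      have h4 : y ^ 4 / (1 - y) ≤ y ^ 2 / 50 := by
        rw [div_le_iff₀ (by linarith)]
        have h5 : y ^ 2 ≤ (4 / 35) ^ 2 := pow_le_pow_left₀ hy0.le hy1 2
        nlinarith [sq_nonneg y, mul_nonneg (sq_nonneg y) (by linarith : (0:ℝ) ≤ (4 / 35) ^ 2 - y ^ 2),
          mul_nonneg (sq_nonneg y) (by linarith : (0:ℝ) ≤ 4 / 35 - y)]
      have h5 : y ^ 3 ≤ 4 / 35 * y ^ 2 := by
        nlinarith [mul_nonneg (sq_nonneg y) (by linarith : (0:ℝ) ≤ 4 / 35 - y)]
      have h6 := (abs_le.1 (h3.trans h4)).1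
      have h7 : -y - 3 / 5 * y ^ 2 ≤ Real.log (1 - y) := by nlinarith [sq_nonneg y]
      have h8 : Real.log (1 - y) ≤ Real.log (Real.sin x / x) := by
        apply Real.log_le_log (by linarith)
        rw [le_div_iff₀ hx0, hy]
        nlinarith
      have h9 : Real.log (Real.sin x / x) = Real.log (2 * Real.sin x) - Real.log (2 * x) := by
        rw [← Real.log_div (by positivity) (by positivity)]
        congr 1
        field_simp
      have h10 : x * (2 * 1 / (2 * x)) = 1 := by
        field_simp
      rw [h10]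
      unfold g
      have h11 : y ^ 2 = x ^ 4 / 36 := by
        rw [hy]
        ring
      rw [h9] at h8
      have h12 : 3 * x ^ 2 / 18 = y := by rw [hy]; ring
      rw [h12]
      nlinarith
  have h2 := hmono (Set.left_mem_Icc.2 (by norm_num)) (Set.mem_Icc.2 ⟨h0.le, h1⟩) h0.le
  rw [hF0] at h2
  simp only [hF] at h2
  linarith

end Pool.Agent.Y79.CG
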