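import Pool.Agent.Y79.CG.Lob
import Pool.Agent.Y472.G.Defs

set_option autoImplicit false

/-!
# RHOT: the integrals for the blocks
-/

namespace Pool.Agent.Y79.CG

open GapVol EvenVol EvenVol.LobIneq MeasureTheory Filter Topology
open scoped Real

noncomputable def G1 (t b : ℝ) : ℝ := 2 * lob t - lob (b + t) + lob (b - t)

noncomputable def G2 (s b : ℝ) : ℝ := 2 * lob s + 4 * lob (π / 2 - s) + lob (b + s) - lob (b - s)

lemma cont_G1_t (b : ℝ) : Continuous fun t => G1 t b := by
  have h := lob_cont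
  unfold G1
  fun_prop

lemma cont_G1_b (t : ℝ) : Continuous fun b => G1 t b := by
  have h := lob_cont
  unfold G1
  fun_prop

lemma cont_G2_s (b : ℝ) : Continuous fun s => G2 s b := by
  have h := lob_cont
  unfold G2
  fun_prop

lemma cont_G2_b (s : ℝ) : Continuous fun b => G2 s b := by
  have h := lob_cont
  unfold G2
  fun_prop

lemma d_add {a t : ℝ} (h : Real.sin (a + t) ≠ 0) :
    HasDerivAt (fun t => lob (a + t)) (g (a + t)) t := by
  have := (lob_deriv h).comp t ((hasDerivAt_id t).const_add a)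
  simpa [Function.comp_def] using this

lemma d_sub {a t : ℝ} (h : Real.sin (a - t) ≠ 0) :
    HasDerivAt (fun t => lob (a - t)) (-g (a - t)) t := by
  have := (lob_deriv h).comp t ((hasDerivAt_id t).const_sub a)
  simpa [Function.comp_def] using this

lemma d_add' {a t : ℝ} (h : Real.sin (t + a) ≠ 0) :
    HasDerivAt (fun t => lob (t + a)) (g (t + a)) t := by
  have := (lob_deriv h).comp t ((hasDerivAt_id t).add_const a)
  simpa [Function.comp_def] using this

lemma d_sub' {a t : ℝ} (h : Real.sin (t - a) ≠ 0) :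
    HasDerivAt (fun t => lob (t - a)) (g (t - a)) t := by
  have := (lob_deriv h).comp t ((hasDerivAt_id t).sub_const a)
  simpa [Function.comp_def] using this

lemma dG1_t {t b : ℝ} (h1 : Real.sin t ≠ 0) (h2 : Real.sin (b + t) ≠ 0)
    (h3 : Real.sin (b - t) ≠ 0) :
    HasDerivAt (fun t => G1 t b) (2 * g t - g (b + t) - g (b - t)) t := by
  have := (((lob_deriv h1).const_mul 2).sub (d_add h2)).add (d_sub h3)
  exact this

lemma dG1_b {t b : ℝ} (h2 : Real.sin (b + t) ≠ 0) (h3 : Real.sin (b - t) ≠ 0) :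
    HasDerivAt (fun b => G1 t b) (g (b - t) - g (b + t)) b := by
  have := (((hasDerivAt_const b (2 * lob t))).sub (d_add' h2)).add (d_sub' h3)
  rw [show g (b - t) - g (b + t) = 0 - g (b + t) + g (b - t) by ring]
  exact this

lemma dG2_s {s b : ℝ} (h1 : Real.sin s ≠ 0) (h4 : Real.sin (π / 2 - s) ≠ 0)
    (h2 : Real.sin (b + s) ≠ 0) (h3 : Real.sin (b - s) ≠ 0) :
    HasDerivAt (fun s => G2 s b) (2 * g s - 4 * g (π / 2 - s) + g (b + s) + g (b - s)) s := by
  have := ((((lob_deriv h1).const_mul 2).add ((d_sub h4).const_mul 4)).add (d_add h2)).sub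
    (d_sub h3)
  rw [show 2 * g s - 4 * g (π / 2 - s) + g (b + s) + g (b - s) =
    2 * g s + 4 * -g (π / 2 - s) + g (b + s) - -g (b - s) by ring]
  exact this

lemma dG2_b {s b : ℝ} (h2 : Real.sin (b + s) ≠ 0) (h3 : Real.sin (b - s) ≠ 0) :
    HasDerivAt (fun b => G2 s b) (g (b + s) - g (b - s)) b := by
  have := (((hasDerivAt_const b (2 * lob s + 4 * lob (π / 2 - s)))).add (d_add' h2)).sub
    (d_sub' h3)
  rw [show g (b + s) - g (b - s) = 0 + g (b + s) - g (b - s) by ring]
  exact this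

lemma sin_mul (b t : ℝ) :
    Real.sin (b + t) * Real.sin (b - t) = Real.sin b ^ 2 - Real.sin t ^ 2 := by
  rw [Real.sin_add, Real.sin_sub]
  have h1 := Real.sin_sq_add_cos_sq b
  have h2 := Real.sin_sq_add_cos_sq t
  have h3 : Real.cos b ^ 2 = 1 - Real.sin b ^ 2 := by linarith
  have h4 : Real.cos t ^ 2 = 1 - Real.sin t ^ 2 := by linarith
  have : (Real.sin b * Real.cos t + Real.cos b * Real.sin t) *
      (Real.sin b * Real.cos t - Real.cos b * Real.sin t) =
      Real.sin b ^ 2 * Real.cos t ^ 2 - Real.cos b ^ 2 * Real.sin t ^ 2 := by ring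
  rw [this, h3, h4]
  ring

lemma log_mul4 {x y : ℝ} (hx : 0 < x) (hy : 0 < y) :
    Real.log ((2 * x) * (2 * y)) = Real.log (2 * x) + Real.log (2 * y) :=
  Real.log_mul (by positivity) (by positivity)

/-- sum of two values of `g` -/
lemma g_sum {b t : ℝ} (h2 : 0 < Real.sin (b + t)) (h3 : 0 < Real.sin (b - t)) :
    g (b + t) + g (b - t) = -Real.log (4 * (Real.sin b ^ 2 - Real.sin t ^ 2)) := by
  unfold g
  rw [← sin_mul, show 4 * (Real.sin (b + t) * Real.sin (b - t)) =
    (2 * Real.sin (b + t)) * (2 * Real.sin (b - t)) by ring, log_mul4 h2 h3]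
  ring

lemma g_dbl {t : ℝ} (_ : 0 < Real.sin t) : 2 * g t = -Real.log (4 * Real.sin t ^ 2) := by
  unfold g
  rw [show 4 * Real.sin t ^ 2 = (2 * Real.sin t) ^ 2 by ring, Real.log_pow]
  push_cast
  ring

lemma sinp {x : ℝ} (h0 : 0 < x) (h1 : x < π) : 0 < Real.sin x := Real.sin_pos_of_pos_of_lt_pi h0 h1

/-- the maximum of `G1` in `t` -/
noncomputable def tau (b : ℝ) : ℝ := Real.arcsin (Real.sin b / √2)

lemma div_sqrt_two (x : ℝ) : (x / √2) ^ 2 = x ^ 2 / 2 := by
  rw [div_pow, Real.sq_sqrt (by norm_num)]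

lemma tau_bd {b : ℝ} (h0 : 0 ≤ b) (h1 : b ≤ π / 2) : 0 ≤ tau b ∧ tau b ≤ b ∧ tau b ≤ π / 4 ∧
    Real.sin (tau b) ^ 2 = Real.sin b ^ 2 / 2 := by
  have hπ := Real.pi_pos
  have hs0 : 0 ≤ Real.sin b := Real.sin_nonneg_of_nonneg_of_le_pi h0 (by linarith)
  have hs1 : Real.sin b ≤ 1 := Real.sin_le_one b
  have h2 : 1 ≤ √2 := Real.one_le_sqrt.2 (by norm_num)
  have h3 : 0 ≤ Real.sin b / √2 := by positivity
  have h4 : Real.sin b / √2 ≤ Real.sin b := div_le_self hs0 h2
  refine ⟨Real.arcsin_nonneg.2 h3, ?_, ?_, ?_⟩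
  · calc tau b ≤ Real.arcsin (Real.sin b) := Real.monotone_arcsin h4
      _ = b := Real.arcsin_sin (by linarith) h1
  · have h5 : Real.sin b / √2 ≤ Real.sin (π / 4) := by
      rw [Real.sin_pi_div_four, div_le_div_iff₀ (by positivity) (by norm_num)]
      have := Real.mul_self_sqrt (show (0:ℝ) ≤ 2 by norm_num)
      linarith
    calc tau b ≤ Real.arcsin (Real.sin (π / 4)) := Real.monotone_arcsin h5
      _ = π / 4 := Real.arcsin_sin (by linarith) (by linarith)
  · unfold tau
    rw [Real.sin_arcsin (by linarith) (by linarith), div_sqrt_two]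

/-- (i) -/
lemma G1_le {t b : ℝ} (ht : 0 ≤ t) (htb : t ≤ b) (hb : b ≤ π / 2) : G1 t b ≤ G1 (tau b) b := by
  have hπ := Real.pi_pos
  obtain ⟨c0, c1, c2, c3⟩ := tau_bd (ht.trans htb) hb
  have hsb : 0 ≤ Real.sin b := Real.sin_nonneg_of_nonneg_of_le_pi (ht.trans htb) (by linarith)
  have key : ∀ x ∈ Set.Ioo 0 b, HasDerivAt (fun t => G1 t b)
      (Real.log (4 * (Real.sin b ^ 2 - Real.sin x ^ 2)) - Real.log (4 * Real.sin x ^ 2)) x ∧
      0 < Real.sin x ∧ 0 < Real.sin b ^ 2 - Real.sin x ^ 2 := by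
    intro x hx
    have s1 : 0 < Real.sin x := sinp hx.1 (by linarith [hx.2])
    have s2 : 0 < Real.sin (b + x) := sinp (by linarith [hx.1, hx.2]) (by linarith [hx.2])
    have s3 : 0 < Real.sin (b - x) := sinp (by linarith [hx.2]) (by linarith [hx.1])
    refine ⟨?_, s1, ?_⟩
    · convert dG1_t s1.ne' s2.ne' s3.ne' using 1
      linarith [g_sum s2 s3, g_dbl s1]
    · rw [← sin_mul]
      positivity
  rcases le_total t (tau b) with h | h
  · have hm : MonotoneOn (fun t => G1 t b) (Set.Icc 0 (tau b)) := by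
      apply monotoneOn_of_deriv_nonneg (convex_Icc _ _) (cont_G1_t b).continuousOn
      · intro x hx
        rw [interior_Icc] at hx
        exact ((key x ⟨hx.1, hx.2.trans_le c1⟩).1).differentiableAt.differentiableWithinAt
      · intro x hx
        rw [interior_Icc] at hx
        obtain ⟨k1, k2, k3⟩ := key x ⟨hx.1, hx.2.trans_le c1⟩
        rw [k1.deriv, sub_nonneg]
        apply Real.log_le_log (by positivity)
        have : Real.sin x ≤ Real.sin (tau b) :=
          Real.sin_le_sin_of_le_of_le_pi_div_two (by linarith [hx.1]) (by linarith) hx.2.le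
        nlinarith
    exact hm ⟨ht, h⟩ ⟨c0, le_rfl⟩ h
  · have hm : AntitoneOn (fun t => G1 t b) (Set.Icc (tau b) b) := by
      apply antitoneOn_of_deriv_nonpos (convex_Icc _ _) (cont_G1_t b).continuousOn
      · intro x hx
        rw [interior_Icc] at hx
        exact ((key x ⟨c0.trans_lt hx.1, hx.2⟩).1).differentiableAt.differentiableWithinAt
      · intro x hx
        rw [interior_Icc] at hx
        obtain ⟨k1, k2, k3⟩ := key x ⟨c0.trans_lt hx.1, hx.2⟩
        rw [k1.deriv, sub_nonpos]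
        apply Real.log_le_log (by positivity)
        have h5 : Real.sin (tau b) ≤ Real.sin x :=
          Real.sin_le_sin_of_le_of_le_pi_div_two (by linarith) (by linarith [hx.2]) hx.1.le
        have h6 : 0 ≤ Real.sin (tau b) := Real.sin_nonneg_of_nonneg_of_le_pi c0 (by linarith)
        nlinarith
    exact hm ⟨le_rfl, c1⟩ ⟨h, htb⟩ h

/-- (ii) -/
lemma G2_mono {s s' b : ℝ} (h0 : 0 ≤ s) (hs : s ≤ s') (hsb : s' ≤ b) (h4 : s' ≤ π / 4)
    (hb : b ≤ π / 2) : G2 s b ≤ G2 s' b := by
  have hπ := Real.pi_pos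
  have hm : MonotoneOn (fun s => G2 s b) (Set.Icc 0 s') := by
    have key : ∀ x ∈ Set.Ioo 0 s', ∃ d : ℝ, HasDerivAt (fun s => G2 s b) d x ∧ 0 ≤ d := by
      intro x hx
      have s1 : 0 < Real.sin x := sinp hx.1 (by linarith [hx.2])
      have s2 : 0 < Real.sin (b + x) := sinp (by linarith [hx.1, hx.2]) (by linarith [hx.2])
      have s3 : 0 < Real.sin (b - x) := sinp (by linarith [hx.2]) (by linarith [hx.1])
      have s4 : 0 < Real.sin (π / 2 - x) := sinp (by linarith [hx.2]) (by linarith [hx.1])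
      refine ⟨_, dG2_s s1.ne' s4.ne' s2.ne' s3.ne', ?_⟩
      have e1 := g_sum s2 s3
      have e2 := g_dbl s1
      have e3 := g_dbl s4
      have e4 : Real.log (4 * Real.sin x ^ 2) ≤ Real.log (4 * Real.sin (π / 2 - x) ^ 2) := by
        apply Real.log_le_log (by positivity)
        have : Real.sin x ≤ Real.sin (π / 2 - x) :=
          Real.sin_le_sin_of_le_of_le_pi_div_two (by linarith [hx.1]) (by linarith [hx.1])
            (by linarith [hx.2])
        nlinarith
      have e5 : Real.log (4 * (Real.sin b ^ 2 - Real.sin x ^ 2)) ≤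
          Real.log (4 * Real.sin (π / 2 - x) ^ 2) := by
        apply Real.log_le_log
        · rw [← sin_mul]
          positivity
        · rw [Real.sin_pi_div_two_sub]
          have := Real.sin_sq_add_cos_sq x
          have := Real.sin_sq_le_one b
          linarith
      linarith
    apply monotoneOn_of_deriv_nonneg (convex_Icc _ _) (cont_G2_s b).continuousOn
    · intro x hx
      rw [interior_Icc] at hx
      obtain ⟨d, k1, k2⟩ := key x hx
      exact k1.differentiableAt.differentiableWithinAt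
    · intro x hx
      rw [interior_Icc] at hx
      obtain ⟨d, k1, k2⟩ := key x hx
      rw [k1.deriv]
      exact k2
  exact hm ⟨h0, hs⟩ ⟨h0.trans hs, le_rfl⟩ hs

/-- (iii) -/
lemma G12_anti {t s b : ℝ} (h0 : 0 ≤ t) (hts : t ≤ s) (hsb : s ≤ b) (hb : b ≤ π / 2) :
    G1 t b + G2 s b ≤ G1 t s + G2 s s := by
  have hπ := Real.pi_pos
  have hm : AntitoneOn (fun b => G1 t b + G2 s b) (Set.Icc s b) := by
    have key : ∀ x ∈ Set.Ioo s b, ∃ d : ℝ, HasDerivAt (fun b => G1 t b + G2 s b) d x ∧ d ≤ 0 := by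
      intro x hx
      have s1 : 0 < Real.sin (x + t) := sinp (by linarith [hx.1, hx.2]) (by linarith [hx.2])
      have s2 : 0 < Real.sin (x - t) := sinp (by linarith [hx.1, hx.2]) (by linarith [hx.2])
      have s3 : 0 < Real.sin (x + s) := sinp (by linarith [hx.1, hx.2]) (by linarith [hx.2])
      have s4 : 0 < Real.sin (x - s) := sinp (by linarith [hx.1, hx.2]) (by linarith [hx.2])
      refine ⟨_, (dG1_b s1.ne' s2.ne').add (dG2_b s3.ne' s4.ne'), ?_⟩
      unfold g
      have e1 : Real.log ((2 * Real.sin (x + t)) * (2 * Real.sin (x - s))) ≤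
          Real.log ((2 * Real.sin (x - t)) * (2 * Real.sin (x + s))) := by
        apply Real.log_le_log (by positivity)
        have e2 : Real.sin (x - t) * Real.sin (x + s) - Real.sin (x + t) * Real.sin (x - s) =
            Real.sin (2 * x) * Real.sin (s - t) := by
          rw [Real.sin_add, Real.sin_add, Real.sin_sub, Real.sin_sub, Real.sin_sub,
            Real.sin_two_mul]
          ring
        have e3 : 0 ≤ Real.sin (2 * x) := Real.sin_nonneg_of_nonneg_of_le_pi
          (by linarith [hx.1, hx.2]) (by linarith [hx.2])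
        have e4 : 0 ≤ Real.sin (s - t) := Real.sin_nonneg_of_nonneg_of_le_pi
          (by linarith [hx.1, hx.2]) (by linarith [hx.2])
        nlinarith [mul_nonneg e3 e4]
      rw [log_mul4 s1 s4, log_mul4 s2 s3] at e1
      linarith
    have hc : Continuous fun b => G1 t b + G2 s b := (cont_G1_b t).add (cont_G2_b s)
    apply antitoneOn_of_deriv_nonpos (convex_Icc _ _) hc.continuousOn
    · intro x hx
      rw [interior_Icc] at hx
      obtain ⟨d, k1, k2⟩ := key x hx
      exact k1.differentiableAt.differentiableWithinAt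
    · intro x hx
      rw [interior_Icc] at hx
      obtain ⟨d, k1, k2⟩ := key x hx
      rw [k1.deriv]
      exact k2
  exact hm ⟨le_rfl, hsb⟩ ⟨hsb, le_rfl⟩ hsb

/-- the function of one variable -/
noncomputable def TT (b : ℝ) : ℝ := G1 (tau b) b + (4 * lob b + 2 * lob (π / 2 - b))

lemma G2_diag (b : ℝ) : G2 b b = 4 * lob b + 2 * lob (π / 2 - b) := by
  unfold G2
  rw [sub_self, lob_zero, ← two_mul, lob_two, show b + π / 2 = -(π / 2 - b) + π by ring, lob_per,
    lob_neg]
  ring

lemma sum_le_TT {t s b : ℝ} (h0 : 0 ≤ t) (htb : t ≤ b) (hs0 : 0 ≤ s) (hsb : s ≤ b)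
    (hb : b ≤ π / 2) : ∃ c : ℝ, 0 ≤ c ∧ c ≤ π / 2 ∧ G1 t b + G2 s b ≤ TT c := by
  have hπ := Real.pi_pos
  have main : ∀ s : ℝ, π / 4 ≤ s → s ≤ b → G1 t b + G2 s b ≤ TT s := by
    intro s h1 h2
    obtain ⟨c0, c1, c2, c3⟩ := tau_bd (h0.trans htb) hb
    have e1 := G1_le h0 htb hb
    have e2 := G12_anti c0 (c2.trans h1) h2 hb
    have e3 := G1_le c0 (c2.trans h1) (h2.trans hb)
    rw [G2_diag] at e2
    unfold TT
    linarith
  rcases le_total s (π / 4) with h | h
  · rcases le_total b (π / 4) with h' | h'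
    · refine ⟨b, h0.trans htb, hb, ?_⟩
      have e1 := G1_le h0 htb hb
      have e2 := G2_mono hs0 hsb le_rfl h' hb
      rw [G2_diag] at e2
      unfold TT
      linarith
    · refine ⟨π / 4, by positivity, by linarith, ?_⟩
      have e2 := G2_mono hs0 h h' le_rfl hb
      linarith [main (π / 4) le_rfl h']
  · exact ⟨s, hs0, hsb.trans hb, main s h hsb⟩

/-! ### The function of one variable -/

lemma sqrt_eq {b : ℝ} (h0 : 0 ≤ b) (h1 : b ≤ π / 2) :
    2 * Real.sin (b + tau b) = √2 * Real.sin b * (Real.cos b + √(1 + Real.cos b ^ 2)) := by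
  obtain ⟨c0, c1, c2, c3⟩ := tau_bd h0 h1
  have hπ := Real.pi_pos
  have hs0 : 0 ≤ Real.sin b := Real.sin_nonneg_of_nonneg_of_le_pi h0 (by linarith)
  have h2 : √2 * √2 = 2 := Real.mul_self_sqrt (by norm_num)
  have hst : Real.sin (tau b) = Real.sin b / √2 := by
    unfold tau
    have h5 : 1 ≤ √2 := Real.one_le_sqrt.2 (by norm_num)
    have h6 : Real.sin b / √2 ≤ Real.sin b := div_le_self hs0 h5
    have h7 : 0 ≤ Real.sin b / √2 := by positivity
    exact Real.sin_arcsin (by linarith) (h6.trans (Real.sin_le_one b))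
  have hct : √(1 + Real.cos b ^ 2) = √2 * Real.cos (tau b) := by
    have h3 : 0 ≤ √2 * Real.cos (tau b) :=
      mul_nonneg (Real.sqrt_nonneg _) (Real.cos_nonneg_of_mem_Icc ⟨by linarith, by linarith⟩)
    rw [Real.sqrt_eq_iff_mul_self_eq (by positivity) h3]
    have h4 := Real.sin_sq_add_cos_sq (tau b)
    have h5 := Real.sin_sq_add_cos_sq b
    symm
    calc √2 * Real.cos (tau b) * (√2 * Real.cos (tau b)) =
        (√2 * √2) * Real.cos (tau b) ^ 2 := by ring
      _ = 1 + Real.cos b ^ 2 := by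
        rw [h2]
        linarith
  rw [Real.sin_add, hct, hst]
  have h6 : √2 ≠ 0 := by positivity
  field_simp
  linear_combination (-(Real.sin b * Real.cos (tau b) * √2 + Real.cos b * Real.sin b)) * h2

/-- the derivative of `TT` -/
noncomputable def DT (b : ℝ) : ℝ :=
  2 * (Real.log ((Real.cos b + √(1 + Real.cos b ^ 2)) * (2 * Real.cos b)) -
    Real.log (4 * Real.sin b ^ 2))

lemma tau_lt {b : ℝ} (h0 : 0 < b) (h1 : b ≤ π / 2) : 0 < tau b ∧ tau b < b := by
  obtain ⟨c0, c1, c2, c3⟩ := tau_bd h0.le h1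
  have hs : 0 < Real.sin b := sinp h0 (by linarith [Real.pi_pos])
  constructor
  · rcases c0.eq_or_lt with h | h
    · rw [← h, Real.sin_zero] at c3
      nlinarith
    · exact h
  · rcases c1.eq_or_lt with h | h
    · rw [h] at c3
      nlinarith
    · exact h

lemma d_comp {f : ℝ → ℝ} {f' b : ℝ} (hf : HasDerivAt f f' b) (h : Real.sin (f b) ≠ 0) :
    HasDerivAt (fun b => lob (f b)) (g (f b) * f') b :=
  HasDerivAt.comp (h₂ := lob) (h := f) b (lob_deriv h) hf

lemma dTT {b : ℝ} (h0 : 0 < b) (h1 : b < π / 2) : HasDerivAt TT (DT b) b := by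
  have hπ := Real.pi_pos
  obtain ⟨c0, c1, c2, c3⟩ := tau_bd h0.le h1.le
  obtain ⟨d0, d1⟩ := tau_lt h0 h1.le
  have sb : 0 < Real.sin b := sinp h0 (by linarith)
  have cb : 0 < Real.cos b := Real.cos_pos_of_mem_Ioo ⟨by linarith, h1⟩
  have st : 0 < Real.sin (tau b) := sinp d0 (by linarith)
  have s1 : 0 < Real.sin (b + tau b) := sinp (by linarith) (by linarith)
  have s2 : 0 < Real.sin (b - tau b) := sinp (by linarith) (by linarith)
  have s3 : 0 < Real.sin (π / 2 - b) := sinp (by linarith) (by linarith)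
  have h2 : 1 < √2 := by
    rw [Real.lt_sqrt (by norm_num)]
    norm_num
  have h3 : Real.sin b / √2 < 1 := by
    rw [div_lt_one (by positivity)]
    exact (Real.sin_le_one b).trans_lt h2
  have h4 : 0 < Real.sin b / √2 := by positivity
  have dt : HasDerivAt tau ((1 / √(1 - (Real.sin b / √2) ^ 2)) * (Real.cos b / √2)) b :=
    (Real.hasDerivAt_arcsin (by linarith) (by linarith)).comp b
      ((Real.hasDerivAt_sin b).div_const √2)
  obtain ⟨τ', hτ⟩ : ∃ τ', HasDerivAt tau τ' b := ⟨_, dt⟩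
  have e1 : HasDerivAt (fun b => lob (tau b)) (g (tau b) * τ') b := d_comp hτ st.ne'
  have e2 : HasDerivAt (fun b => lob (b + tau b)) (g (b + tau b) * (1 + τ')) b :=
    d_comp (f := fun b => b + tau b) ((hasDerivAt_id b).add hτ) s1.ne'
  have e3 : HasDerivAt (fun b => lob (b - tau b)) (g (b - tau b) * (1 - τ')) b :=
    d_comp (f := fun b => b - tau b) ((hasDerivAt_id b).sub hτ) s2.ne'
  have e4 := (((e1.const_mul 2).sub e2).add e3).add
    (((lob_deriv sb.ne').const_mul 4).add ((d_sub s3.ne').const_mul 2))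
  have e5 : DT b = 2 * (g (tau b) * τ') - g (b + tau b) * (1 + τ') + g (b - tau b) * (1 - τ') +
      (4 * g b + 2 * -g (π / 2 - b)) := by
    have f1 := g_sum s1 s2
    have f2 := g_dbl st
    have f3 : Real.sin b ^ 2 - Real.sin (tau b) ^ 2 = Real.sin (tau b) ^ 2 := by
      rw [c3]
      ring
    rw [f3] at f1
    have f4 : 2 * g (tau b) = g (b + tau b) + g (b - tau b) := by rw [f1, f2]
    have f5 : g (b + tau b) = -Real.log (√2 * Real.sin b * (Real.cos b + √(1 + Real.cos b ^ 2))) := by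
      unfold g
      rw [sqrt_eq h0.le h1.le]
    have f6 : 0 < Real.cos b + √(1 + Real.cos b ^ 2) := by positivity
    have f7 : g (π / 2 - b) = -Real.log (2 * Real.cos b) := by
      unfold g
      rw [Real.sin_pi_div_two_sub]
    have f8 := g_dbl sb
    have f9 : Real.log (√2 * Real.sin b * (Real.cos b + √(1 + Real.cos b ^ 2))) =
        Real.log (√2 * Real.sin b) + Real.log (Real.cos b + √(1 + Real.cos b ^ 2)) :=
      Real.log_mul (by positivity) (by positivity)
    have f10 : 2 * Real.log (√2 * Real.sin b) = Real.log (4 * Real.sin (tau b) ^ 2) := by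
      rw [c3, ← Real.log_rpow (by positivity)]
      congr 1
      rw [show (2:ℝ) = ((2:ℕ):ℝ) by norm_num, Real.rpow_natCast, mul_pow]
      push_cast
      rw [Real.sq_sqrt (by norm_num)]
      ring
    have f11 : Real.log ((Real.cos b + √(1 + Real.cos b ^ 2)) * (2 * Real.cos b)) =
        Real.log (Real.cos b + √(1 + Real.cos b ^ 2)) + Real.log (2 * Real.cos b) :=
      Real.log_mul (by positivity) (by positivity)
    unfold DT
    rw [f11, f7]
    have f12 : g (b - tau b) - g (b + tau b) =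
        2 * Real.log (Real.cos b + √(1 + Real.cos b ^ 2)) := by
      have : g (b - tau b) = 2 * g (tau b) - g (b + tau b) := by linarith
      rw [this, f2, f5, f9]
      linarith
    linear_combination (-τ') * f4 - f12 - 2 * f8
  rw [e5]
  exact e4

lemma cont_TT : Continuous TT := by
  have h := lob_cont
  have h2 : Continuous tau := Real.continuous_arcsin.comp (Real.continuous_sin.div_const _)
  unfold TT G1
  fun_prop

end Pool.Agent.Y79.CG
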